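import Pool.Agent.H461R3.E3.EngelMax

namespace Pool.Agent.Results.MP_1664c7_al.MaximalCondition

open Pool.Agent.H461R3.E3

universe u v

/-- Over every field with more than two elements (any characteristic), every anticommutative
3-Engel algebra `A` with the maximal condition on subalgebras is finite-dimensional and nilpotent:
for some `N` every product of `N` elements of `A`, with any arrangement of parentheses, vanishes.
Finite-dimensional algebras satisfy the maximal condition, so they are all nilpotent. -/
theorem result (F : Type u) [Field F] (hF : ∃ m : F, m ≠ 0 ∧ m ≠ 1)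
    (A : Type v) [NonUnitalNonAssocRing A] [Module F A] [IsScalarTower F A A]
    [SMulCommClass F A A] (h0 : Anticommutative A) (h1 : ThreeEngel A)
    (hmax : FiniteDimensional F A ∨
      WellFounded ((· > ·) : NonUnitalSubalgebra F A → NonUnitalSubalgebra F A → Prop)) :
    FiniteDimensional F A ∧ ∃ N, 1 ≤ N ∧ ∀ x : A, IsProd (Set.univ : Set A) N x → x = 0 := by
  have hwf : WellFounded
      ((· > ·) : NonUnitalSubalgebra F A → NonUnitalSubalgebra F A → Prop) := by
    rcases hmax with h | h
    · exact wf_of_fd
    · exact h
  obtain ⟨hfd, c, hc⟩ := engel_max hF h0 h1 hwf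
  refine ⟨hfd, c + 1, by omega, fun x hx => hc x ?_⟩
  have e : ((⊤ : NonUnitalSubalgebra F A) : Set A) = Set.univ := by ext y; simp
  rw [e]
  exact hx

end Pool.Agent.Results.MP_1664c7_al.MaximalCondition
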