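import Pool.Agent.H461R3.E3.Solv

namespace Pool.Agent.Results.MP_1664c7_al.Solvable

open Pool.Agent.H461R3.E3

universe u v

/-- Over every field with more than two elements (any characteristic), every finitely generated
anticommutative 3-Engel algebra `A` that is solvable (it has a chain of ideals
`A = I 0, I 1, ..., I k = 0` with `I j * I j` inside `I (j + 1)`) is nilpotent: for some `N` every
product of `N` elements of `A`, with any arrangement of parentheses, vanishes. -/
theorem result (F : Type u) [Field F] (hF : ∃ m : F, m ≠ 0 ∧ m ≠ 1)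
    (A : Type v) [NonUnitalNonAssocRing A] [Module F A] [IsScalarTower F A A]
    [SMulCommClass F A A] (h0 : Anticommutative A) (h1 : ThreeEngel A)
    (S : Set A) (hS : S.Finite) (hgen : NonUnitalAlgebra.adjoin F S = ⊤)
    (k : ℕ) (I : ℕ → Submodule F A) (hI : ∀ j, ∀ u ∈ I j, ∀ a : A, u * a ∈ I j)
    (hsol : ∀ j, ∀ u ∈ I j, ∀ v ∈ I j, u * v ∈ I (j + 1)) (htop : I 0 = ⊤) (hbot : I k = ⊥) :
    ∃ N, 1 ≤ N ∧ ∀ x : A, IsProd (Set.univ : Set A) N x → x = 0 := by
  obtain ⟨N, hN1, hN⟩ := solv hF h0 h1 hS hgen I hI hsol htop k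
  refine ⟨N, hN1, fun x hx => ?_⟩
  have := hN N le_rfl x hx
  rw [hbot] at this
  exact (Submodule.mem_bot F).1 this

end Pool.Agent.Results.MP_1664c7_al.Solvable
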