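import Pool.Agent.H461R3.E3.Fin

namespace Pool.Agent.Results.MP_1664c7_al.TwoGenerated

open Pool.Agent.H461R3.E3

universe u v

/-- Over every field with more than two elements and of characteristic different from 3, every
two-generated anticommutative 3-Engel algebra is nilpotent, of class at most 14: every product of
15 elements of the subalgebra generated by two elements, with any arrangement of parentheses,
vanishes. -/
theorem result (F : Type u) [Field F] (h3 : (3 : F) ≠ 0) (hF : ∃ m : F, m ≠ 0 ∧ m ≠ 1)
    (A : Type v) [NonUnitalNonAssocRing A] [Module F A] [IsScalarTower F A A]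
    [SMulCommClass F A A] (h0 : Anticommutative A) (h1 : ThreeEngel A) (a b x : A)
    (hx : IsProd (NonUnitalAlgebra.adjoin F {a, b} : Set A) 15 x) : x = 0 :=
  main h3 hF h0 h1 a b x hx

end Pool.Agent.Results.MP_1664c7_al.TwoGenerated
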